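import Mathlib

/-!
# Second moment argument: a set of primes of positive density meets almost all independent classes
-/

namespace H6E

open Finset Filter Topology

theorem sm_pair {Q : Finset ℕ} {a b : ℕ → ℝ} {α β κ : ℝ} (hα0 : 0 ≤ α) (hα1 : α ≤ 1) (hβ0 : 0 ≤ β) (hβ1 : β ≤ 1)
    (hκ : 0 ≤ κ) (h1 : |∑ q ∈ Q, a q - α * #Q| ≤ κ * #Q) (h1' : |∑ q ∈ Q, b q - β * #Q| ≤ κ * #Q)
    (h2 : |∑ q ∈ Q, a q * b q - α * β * #Q| ≤ κ * #Q) :
    ∑ q ∈ Q, (a q - α) * (b q - β) ≤ 3 * κ * #Q := by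
  have e : ∑ q ∈ Q, (a q - α) * (b q - β) =
      ∑ q ∈ Q, a q * b q - β * ∑ q ∈ Q, a q - α * ∑ q ∈ Q, b q + α * β * #Q := by
    rw [mul_sum, mul_sum]
    have : (α * β * (#Q : ℝ)) = ∑ q ∈ Q, α * β := by rw [sum_const, nsmul_eq_mul]; ring
    rw [this, ← sum_sub_distrib, ← sum_sub_distrib, ← sum_add_distrib]
    exact sum_congr rfl fun q _ => by ring
  rw [e]
  have hn : (0 : ℝ) ≤ #Q := Nat.cast_nonneg _
  rw [abs_le] at h1 h1' h2
  have e1 : β * (α * #Q - ∑ q ∈ Q, a q) ≤ 1 * (κ * #Q) := by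
    calc β * (α * #Q - ∑ q ∈ Q, a q) ≤ β * (κ * #Q) := mul_le_mul_of_nonneg_left (by linarith [h1.1]) hβ0
      _ ≤ 1 * (κ * #Q) := mul_le_mul_of_nonneg_right hβ1 (mul_nonneg hκ hn)
  have e2 : α * (β * #Q - ∑ q ∈ Q, b q) ≤ 1 * (κ * #Q) := by
    calc α * (β * #Q - ∑ q ∈ Q, b q) ≤ α * (κ * #Q) := mul_le_mul_of_nonneg_left (by linarith [h1'.1]) hα0
      _ ≤ 1 * (κ * #Q) := mul_le_mul_of_nonneg_right hα1 (mul_nonneg hκ hn)
  nlinarith [h2.2, e1, e2]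

theorem sm_diag {Q : Finset ℕ} {a : ℕ → ℝ} {α κ : ℝ} (ha : ∀ q, a q = 0 ∨ a q = 1) (hα0 : 0 ≤ α) (hα1 : α ≤ 1)
    (hκ : 0 ≤ κ) (h1 : |∑ q ∈ Q, a q - α * #Q| ≤ κ * #Q) :
    ∑ q ∈ Q, (a q - α) * (a q - α) ≤ #Q / 4 + 3 * κ * #Q := by
  have e : ∑ q ∈ Q, (a q - α) * (a q - α) = (1 - 2 * α) * ∑ q ∈ Q, a q + α ^ 2 * #Q := by
    rw [mul_sum]
    have : (α ^ 2 * (#Q : ℝ)) = ∑ q ∈ Q, α ^ 2 := by rw [sum_const, nsmul_eq_mul]; ring
    rw [this, ← sum_add_distrib]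
    refine sum_congr rfl fun q _ => ?_
    rcases ha q with h | h <;> rw [h] <;> ring
  rw [e]
  have hn : (0 : ℝ) ≤ #Q := Nat.cast_nonneg _
  have h3 : |(1 - 2 * α) * (∑ q ∈ Q, a q - α * #Q)| ≤ 1 * (κ * #Q) := by
    rw [abs_mul]
    exact mul_le_mul (by rw [abs_le]; constructor <;> linarith) h1 (abs_nonneg _) zero_le_one
  have h4 := (abs_le.1 h3).2
  have h5 : (α - α ^ 2) * #Q ≤ 1 / 4 * #Q := mul_le_mul_of_nonneg_right (by nlinarith [sq_nonneg (α - 1 / 2)]) hn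
  nlinarith [h4, h5, mul_nonneg hκ hn]

/-- The finite form of the argument. -/
theorem sm {m : ℕ} {Q S : Finset ℕ} (hSQ : S ⊆ Q) (hQ : 0 < #Q) {a : Fin m → ℕ → ℝ} {α : Fin m → ℝ} {κ η : ℝ}
    (hη : 0 ≤ η) (ha : ∀ i q, a i q = 0 ∨ a i q = 1) (hα0 : ∀ i, 0 ≤ α i) (hα1 : ∀ i, α i ≤ 1)
    (hκ : 0 ≤ κ) (h1 : ∀ i, |∑ q ∈ Q, a i q - α i * #Q| ≤ κ * #Q)
    (h2 : ∀ i j, i ≠ j → |∑ q ∈ Q, a i q * a j q - α i * α j * #Q| ≤ κ * #Q)
    (h3 : ∀ i, ∑ q ∈ S, a i q ≤ α i * #S - η * #Q) :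
    (m : ℝ) * (m * η ^ 2) ≤ m * (1 / 4 + 3 * κ * m) := by
  have hn : (0 : ℝ) < #Q := by exact_mod_cast hQ
  -- the second moment
  have hM : ∑ q ∈ Q, (∑ i, (a i q - α i)) ^ 2 ≤ m * (1 / 4 + 3 * κ * m) * #Q := by
    have e : ∑ q ∈ Q, (∑ i, (a i q - α i)) ^ 2 = ∑ i, ∑ j, ∑ q ∈ Q, (a i q - α i) * (a j q - α j) := by
      simp_rw [sq, sum_mul_sum]
      rw [sum_comm]
      refine sum_congr rfl fun i _ => ?_
      rw [sum_comm]
    rw [e]
    have e2 : ∀ i j : Fin m, ∑ q ∈ Q, (a i q - α i) * (a j q - α j) ≤ (if i = j then (#Q : ℝ) / 4 else 0) + 3 * κ * #Q := by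
      intro i j
      split_ifs with h
      · subst h
        exact sm_diag (ha i) (hα0 i) (hα1 i) hκ (h1 i)
      · rw [zero_add]
        exact sm_pair (hα0 i) (hα1 i) (hα0 j) (hα1 j) hκ (h1 i) (h1 j) (h2 i j h)
    calc ∑ i, ∑ j, ∑ q ∈ Q, (a i q - α i) * (a j q - α j)
        ≤ ∑ i : Fin m, ∑ j : Fin m, ((if i = j then (#Q : ℝ) / 4 else 0) + 3 * κ * #Q) :=
          sum_le_sum fun i _ => sum_le_sum fun j _ => e2 i j
      _ = m * (1 / 4 + 3 * κ * m) * #Q := by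
          simp only [sum_add_distrib, sum_ite_eq, mem_univ, if_true, sum_const, card_univ, Fintype.card_fin, nsmul_eq_mul]
          ring
  -- Cauchy-Schwarz on S
  have hC : (∑ q ∈ S, ∑ i, (a i q - α i)) ^ 2 ≤ #S * ∑ q ∈ S, (∑ i, (a i q - α i)) ^ 2 :=
    sq_sum_le_card_mul_sum_sq
  have hS1 : ∑ q ∈ S, (∑ i, (a i q - α i)) ^ 2 ≤ ∑ q ∈ Q, (∑ i, (a i q - α i)) ^ 2 :=
    sum_le_sum_of_subset_of_nonneg hSQ fun q _ _ => sq_nonneg _
  have hS2 : (#S : ℝ) ≤ #Q := by exact_mod_cast card_le_card hSQ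
  have hL : ∑ q ∈ S, ∑ i, (a i q - α i) ≤ -(m * (η * #Q)) := by
    rw [sum_comm]
    calc ∑ i, ∑ q ∈ S, (a i q - α i) ≤ ∑ i : Fin m, -(η * #Q) := by
          refine sum_le_sum fun i _ => ?_
          rw [sum_sub_distrib, sum_const, nsmul_eq_mul]
          linarith [h3 i]
      _ = -(m * (η * #Q)) := by
          rw [sum_const, card_univ, Fintype.card_fin, nsmul_eq_mul]
          ring
  have hL2 : (m * (η * #Q)) ^ 2 ≤ (∑ q ∈ S, ∑ i, (a i q - α i)) ^ 2 := by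
    have h0 : (0 : ℝ) ≤ m * (η * #Q) := by positivity
    nlinarith [hL, h0]
  have hfin : (m * (η * #Q)) ^ 2 ≤ #Q * (m * (1 / 4 + 3 * κ * m) * #Q) := by
    refine hL2.trans (hC.trans ?_)
    refine mul_le_mul hS2 (hS1.trans hM) (sum_nonneg fun q _ => sq_nonneg _) hn.le
  have hn2 : (0 : ℝ) < (#Q : ℝ) ^ 2 := by positivity
  have h6 : (m : ℝ) * (m * η ^ 2) * (#Q : ℝ) ^ 2 ≤ m * (1 / 4 + 3 * κ * m) * (#Q : ℝ) ^ 2 := by
    calc (m : ℝ) * (m * η ^ 2) * (#Q : ℝ) ^ 2 = (m * (η * #Q)) ^ 2 := by ring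
      _ ≤ #Q * (m * (1 / 4 + 3 * κ * m) * #Q) := hfin
      _ = m * (1 / 4 + 3 * κ * m) * (#Q : ℝ) ^ 2 := by ring
  exact le_of_mul_le_mul_right h6 hn2

/-- The number of primes `p ≤ X` in `A`. -/
noncomputable def cnt (A : Set ℕ) (X : ℕ) : ℝ := ({p : ℕ | p ≤ X ∧ p.Prime ∧ p ∈ A}.ncard : ℝ)

/-- `A` has natural density `d` among the primes. -/
def HasDens (A : Set ℕ) (d : ℝ) : Prop :=
  Tendsto (fun X : ℕ => cnt A X / (Nat.primeCounting X : ℝ)) atTop (𝓝 d)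

/-- The primes up to `X`. -/
def PX (X : ℕ) : Finset ℕ := (range (X + 1)).filter Nat.Prime

theorem card_PX (X : ℕ) : #(PX X) = Nat.primeCounting X := by
  rw [PX, Nat.primeCounting, Nat.primeCounting', Nat.count_eq_card_filter_range]

open Classical in
theorem cnt_eq_card (A : Set ℕ) (X : ℕ) : cnt A X = #((PX X).filter (· ∈ A)) := by
  rw [cnt, ← Set.ncard_coe_finset]
  congr 2
  ext p
  simp only [PX, coe_filter, mem_filter, mem_range, Nat.lt_succ_iff, and_assoc]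

/-- the indicator function -/
noncomputable def ind (A : Set ℕ) (q : ℕ) : ℝ := Set.indicator A (fun _ => (1 : ℝ)) q

theorem ind_zero_or_one (A : Set ℕ) (q : ℕ) : ind A q = 0 ∨ ind A q = 1 := by
  unfold ind
  by_cases h : q ∈ A
  · right
    rw [Set.indicator_of_mem h]
  · left
    rw [Set.indicator_of_notMem h]

theorem ind_mul (A B : Set ℕ) (q : ℕ) : ind A q * ind B q = ind (A ∩ B) q := by
  unfold ind
  by_cases hA : q ∈ A <;> by_cases hB : q ∈ B <;> simp [hA, hB]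

open Classical in
theorem sum_ind (A : Set ℕ) (Q : Finset ℕ) : ∑ q ∈ Q, ind A q = #(Q.filter (· ∈ A)) := by
  rw [card_filter]
  push_cast
  refine sum_congr rfl fun q _ => ?_
  unfold ind
  rw [Set.indicator_apply]

theorem cnt_eq_sum (A : Set ℕ) (X : ℕ) : cnt A X = ∑ q ∈ PX X, ind A q := by
  rw [cnt_eq_card, sum_ind]

theorem tendsto_pi : Tendsto (fun X : ℕ => Nat.primeCounting X) atTop atTop := Nat.tendsto_primeCounting

theorem ev_close {A : Set ℕ} {d κ : ℝ} (h : HasDens A d) (hκ : 0 < κ) :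
    ∀ᶠ X : ℕ in atTop, |∑ q ∈ PX X, ind A q - d * #(PX X)| ≤ κ * #(PX X) := by
  have h1 : ∀ᶠ X : ℕ in atTop, 1 ≤ Nat.primeCounting X := tendsto_pi.eventually (eventually_ge_atTop 1)
  have h2 := (Metric.tendsto_nhds.1 h) κ hκ
  filter_upwards [h1, h2] with X hX1 hX2
  have hpos : (0 : ℝ) < Nat.primeCounting X := by exact_mod_cast hX1
  rw [Real.dist_eq, cnt_eq_sum] at hX2
  rw [card_PX]
  have e : ∑ q ∈ PX X, ind A q - d * Nat.primeCounting X =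
      ((∑ q ∈ PX X, ind A q) / (Nat.primeCounting X : ℝ) - d) * Nat.primeCounting X := by
    field_simp
  rw [e, abs_mul, abs_of_pos hpos]
  exact mul_le_mul_of_nonneg_right hX2.le hpos.le

/-- At most `1 / (3 η²)` pairwise independent (finite) families of classes can, for all large `X`, have a member
missed by more than `η` at `X`. -/
theorem few_bad {m : ℕ} (S : Set ℕ) (T : Fin m → Type) [∀ i, Finite (T i)] (A : ∀ i, T i → Set ℕ) (α : ∀ i, T i → ℝ)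
    (hα0 : ∀ i t, 0 ≤ α i t) (hα1 : ∀ i t, α i t ≤ 1)
    (h1 : ∀ i t, HasDens (A i t) (α i t)) (h2 : ∀ i j, i ≠ j → ∀ t u, HasDens (A i t ∩ A j u) (α i t * α j u))
    {η : ℝ} (hη : 0 < η)
    (h3 : ∀ i, ∀ᶠ X : ℕ in atTop, ∃ t, cnt (S ∩ A i t) X ≤ α i t * cnt S X - η * Nat.primeCounting X) :
    (m : ℝ) * η ^ 2 ≤ 1 / 3 := by
  classical
  rcases Nat.eq_zero_or_pos m with hm | hm
  · subst hm
    norm_num
  have hκ : 0 < η ^ 2 / 12 := by positivity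
  have e1 : ∀ᶠ X : ℕ in atTop, ∀ i t, |∑ q ∈ PX X, ind (A i t) q - α i t * #(PX X)| ≤ η ^ 2 / 12 * #(PX X) :=
    eventually_all.2 fun i => eventually_all.2 fun t => ev_close (h1 i t) hκ
  have e2 : ∀ᶠ X : ℕ in atTop, ∀ i j, i ≠ j → ∀ t u,
      |∑ q ∈ PX X, ind (A i t) q * ind (A j u) q - α i t * α j u * #(PX X)| ≤ η ^ 2 / 12 * #(PX X) := by
    refine eventually_all.2 fun i => eventually_all.2 fun j => ?_
    by_cases hij : i = j
    · exact Eventually.of_forall fun X h => absurd hij h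
    · have h4 : ∀ᶠ X : ℕ in atTop, ∀ t u,
          |∑ q ∈ PX X, ind (A i t) q * ind (A j u) q - α i t * α j u * #(PX X)| ≤ η ^ 2 / 12 * #(PX X) := by
        refine eventually_all.2 fun t => eventually_all.2 fun u => ?_
        filter_upwards [ev_close (h2 i j hij t u) hκ] with X hX
        simp_rw [ind_mul]
        exact hX
      filter_upwards [h4] with X hX _
      exact hX
  have e3 : ∀ᶠ X : ℕ in atTop, ∀ i, ∃ t, cnt (S ∩ A i t) X ≤ α i t * cnt S X - η * Nat.primeCounting X :=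
    eventually_all.2 h3
  have e4 : ∀ᶠ X : ℕ in atTop, 1 ≤ Nat.primeCounting X := tendsto_pi.eventually (eventually_ge_atTop 1)
  obtain ⟨X, hX1, hX2, hX3, hX4⟩ := (e1.and (e2.and (e3.and e4))).exists
  choose t ht using hX3
  have h5 := sm (m := m) (Q := PX X) (S := (PX X).filter (· ∈ S)) (filter_subset _ _)
    (by rw [card_PX]; exact hX4) (a := fun i q => ind (A i (t i)) q) (α := fun i => α i (t i)) (κ := η ^ 2 / 12)
    (η := η) hη.le (fun i q => ind_zero_or_one _ _) (fun i => hα0 i _) (fun i => hα1 i _) hκ.le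
    (fun i => hX1 i _) (fun i j hij => hX2 i j hij _ _) (fun i => by
      have h6 := ht i
      have h7 : ∑ q ∈ (PX X).filter (· ∈ S), ind (A i (t i)) q = cnt (S ∩ A i (t i)) X := by
        rw [sum_filter, cnt_eq_sum]
        refine sum_congr rfl fun q _ => ?_
        rw [← ind_mul]
        by_cases hq : q ∈ S <;> simp [ind, hq]
      have h8 : (#((PX X).filter (· ∈ S)) : ℝ) = cnt S X := by
        rw [cnt_eq_sum, ← sum_ind]
      rw [h7, h8, card_PX]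
      exact h6)
  have hm' : (0 : ℝ) < m := by exact_mod_cast hm
  have h6 := le_of_mul_le_mul_left h5 hm'
  nlinarith [h6]

end H6E
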