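import Pool.Agent.Lib.H6E.A1
import Pool.Agent.Lib.CHEB.Rat

/-!
# Primes with a Frobenius element in a conjugation-stable set: natural density (from Chebotarev's theorem)
-/

namespace H6E

open Finset Filter Topology NumberField

theorem cnt_nonneg (A : Set ℕ) (X : ℕ) : 0 ≤ cnt A X := Nat.cast_nonneg _

theorem cnt_mono {A B : Set ℕ} (h : ∀ p ∈ A, p.Prime → p ∈ B) (X : ℕ) : cnt A X ≤ cnt B X := by
  refine Nat.cast_le.2 (Set.ncard_le_ncard ?_ ((Set.finite_le_nat X).subset fun p hp => hp.1))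
  rintro p ⟨h1, h2, h3⟩
  exact ⟨h1, h2, h p h3 h2⟩

theorem cnt_union_add_inter (A B : Set ℕ) (X : ℕ) : cnt (A ∪ B) X + cnt (A ∩ B) X = cnt A X + cnt B X := by
  simp only [cnt_eq_sum, ← sum_add_distrib]
  refine sum_congr rfl fun q _ => ?_
  unfold ind
  by_cases hA : q ∈ A <;> by_cases hB : q ∈ B <;> simp [hA, hB]

theorem cnt_univ (X : ℕ) : cnt Set.univ X = Nat.primeCounting X := by
  rw [cnt_eq_sum, ← card_PX]
  simp [ind]

theorem cnt_le_pi (A : Set ℕ) (X : ℕ) : cnt A X ≤ Nat.primeCounting X := by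
  rw [← cnt_univ]
  exact cnt_mono (fun _ _ _ => trivial) X

theorem ev_pi_pos : ∀ᶠ X : ℕ in atTop, (0 : ℝ) < Nat.primeCounting X := by
  filter_upwards [tendsto_pi.eventually (eventually_ge_atTop 1)] with X hX
  exact_mod_cast hX

theorem hasDens_univ : HasDens Set.univ 1 := by
  refine (tendsto_const_nhds).congr' ?_
  filter_upwards [ev_pi_pos] with X hX
  rw [cnt_univ, div_self hX.ne']

/-- If `A ∪ B` contains all primes and the densities add up to one, the intersection has density zero. -/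
theorem hasDens_inter_zero {A B : Set ℕ} {α : ℝ} (hA : HasDens A α) (hB : HasDens B (1 - α))
    (h : ∀ p : ℕ, p.Prime → p ∈ A ∪ B) : HasDens (A ∩ B) 0 := by
  have h1 := (hA.add hB).sub hasDens_univ
  rw [show α + (1 - α) - 1 = (0 : ℝ) by ring] at h1
  refine h1.congr fun X => ?_
  have h2 := cnt_union_add_inter A B X
  have h3 : cnt (A ∪ B) X = cnt Set.univ X :=
    le_antisymm (cnt_mono (fun _ _ _ => trivial) X) (cnt_mono (fun p _ hp => h p hp) X)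
  rw [← add_div, ← sub_div]
  congr 1
  linarith

variable {L : Type} [Field L] [alg : Algebra ℚ L]

/-- `σ` is a Frobenius element at some prime of `L` above `p`. -/
def IsFr (p : ℕ) (σ : L ≃ₐ[ℚ] L) : Prop :=
  ∃ W : Ideal (𝓞 L), W.IsPrime ∧ (p : 𝓞 L) ∈ W ∧ ∀ y : 𝓞 L, σ • y - y ^ p ∈ W

/-- The set of the `p` with a Frobenius element in `C`. -/
def FrIn (C : Set (L ≃ₐ[ℚ] L)) : Set ℕ := {p | ∃ σ ∈ C, IsFr p σ}

theorem isFr_conj {p : ℕ} {σ τ : L ≃ₐ[ℚ] L} (h : IsConj σ τ) (hs : IsFr p σ) : IsFr p τ := by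
  obtain ⟨g, rfl⟩ := isConj_iff.1 h
  obtain ⟨W, hW, hp, hσ⟩ := hs
  refine ⟨W.comap (MulSemiringAction.toRingHom (L ≃ₐ[ℚ] L) (𝓞 L) g⁻¹), Ideal.comap_isPrime _ _, ?_, fun y => ?_⟩
  · rw [Ideal.mem_comap, map_natCast]
    exact hp
  · rw [Ideal.mem_comap, map_sub, map_pow, MulSemiringAction.toRingHom_apply, MulSemiringAction.toRingHom_apply]
    have h1 := hσ (g⁻¹ • y)
    rw [smul_smul] at h1 ⊢
    rwa [show g⁻¹ * (g * σ * g⁻¹) = σ * g⁻¹ by group]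

/-- Chebotarev for one element. -/
theorem dens_isFr [fd : FiniteDimensional ℚ L] [IsGalois ℚ L] (σ : L ≃ₐ[ℚ] L) :
    HasDens {p | IsFr p σ} ((Set.ncard {τ : L ≃ₐ[ℚ] L | IsConj σ τ} : ℝ) / (Nat.card (L ≃ₐ[ℚ] L) : ℝ)) := by
  have hc : CharZero L := algebraRat.charZero L
  obtain rfl : alg = DivisionRing.toRatAlgebra := Subsingleton.elim _ _
  have hn : NumberField L := ⟨⟩
  refine (CFT.chebotarev_rat L σ).congr fun X => ?_
  unfold cnt
  congr 3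
  ext p
  simp only [Set.mem_ofPred_eq]
  constructor
  · rintro ⟨h1, h2, W, h3, h4⟩
    exact ⟨h1, h2, W.asIdeal, W.isPrime, h3, h4⟩
  · rintro ⟨h1, h2, W, hW, h3, h4⟩
    refine ⟨h1, h2, ⟨W, hW, ?_⟩, h3, h4⟩
    rintro rfl
    rw [Ideal.mem_bot] at h3
    exact h2.ne_zero (by exact_mod_cast h3)

/-- The proportion of `C` in the Galois group. -/
noncomputable def mu (C : Set (L ≃ₐ[ℚ] L)) : ℝ := (C.ncard : ℝ) / (Nat.card (L ≃ₐ[ℚ] L) : ℝ)

/-- stable under conjugation -/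
def Stab (C : Set (L ≃ₐ[ℚ] L)) : Prop := ∀ σ τ, IsConj σ τ → σ ∈ C → τ ∈ C

variable [fd : FiniteDimensional ℚ L]

theorem card_pos' : (0 : ℝ) < (Nat.card (L ≃ₐ[ℚ] L) : ℝ) := by
  exact_mod_cast Nat.card_pos

theorem mu_nonneg (C : Set (L ≃ₐ[ℚ] L)) : 0 ≤ mu C := by
  unfold mu
  positivity

theorem mu_compl (C : Set (L ≃ₐ[ℚ] L)) : mu Cᶜ = 1 - mu C := by
  have h : C.ncard + Cᶜ.ncard = Nat.card (L ≃ₐ[ℚ] L) := Set.ncard_add_ncard_compl C
  have h' : (C.ncard : ℝ) + (Cᶜ.ncard : ℝ) = Nat.card (L ≃ₐ[ℚ] L) := by exact_mod_cast h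
  have h0 := card_pos' (L := L)
  unfold mu
  rw [eq_sub_iff_add_eq, ← add_div, div_eq_one_iff_eq h0.ne']
  linarith

theorem mu_le_one (C : Set (L ≃ₐ[ℚ] L)) : mu C ≤ 1 := by
  have := mu_nonneg Cᶜ
  rw [mu_compl] at this
  linarith

theorem stab_compl {C : Set (L ≃ₐ[ℚ] L)} (hC : Stab C) : Stab Cᶜ :=
  fun σ τ h hσ hτ => hσ (hC τ σ h.symm hτ)

/-- the weights -/
noncomputable def wt (σ : L ≃ₐ[ℚ] L) : ℝ := ((Set.ncard {τ : L ≃ₐ[ℚ] L | IsConj σ τ} : ℝ))⁻¹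

theorem wt_nonneg (σ : L ≃ₐ[ℚ] L) : 0 ≤ wt σ := by
  unfold wt
  positivity

theorem wt_eq {σ τ : L ≃ₐ[ℚ] L} (h : IsConj σ τ) : wt τ = wt σ := by
  unfold wt
  congr 3
  ext ρ
  exact ⟨fun h2 => h.trans h2, fun h2 => h.symm.trans h2⟩

open Classical in
theorem sum_wt (σ : L ≃ₐ[ℚ] L) : ∑ τ ∈ univ.filter (fun τ => IsConj σ τ), wt τ = 1 := by
  rw [sum_congr rfl (fun τ hτ => wt_eq (mem_filter.1 hτ).2), sum_const, nsmul_eq_mul]
  unfold wt
  have h : Set.ncard {τ : L ≃ₐ[ℚ] L | IsConj σ τ} = #(univ.filter (fun τ : L ≃ₐ[ℚ] L => IsConj σ τ)) := by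
    rw [← Set.ncard_coe_finset]
    congr 1
    ext τ
    simp
  rw [h]
  refine mul_inv_cancel₀ ?_
  have : 0 < #(univ.filter (fun τ : L ≃ₐ[ℚ] L => IsConj σ τ)) :=
    card_pos.2 ⟨σ, mem_filter.2 ⟨mem_univ _, IsConj.refl σ⟩⟩
  exact_mod_cast this.ne'

open Classical in
/-- pointwise bound for the indicator function of `FrIn C` -/
theorem ind_frIn_le {C : Set (L ≃ₐ[ℚ] L)} (hC : Stab C) (q : ℕ) :
    ind (FrIn C) q ≤ ∑ σ ∈ univ.filter (fun σ => σ ∈ C), wt σ * ind {p | IsFr p σ} q := by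
  have hnn : ∀ σ : L ≃ₐ[ℚ] L, 0 ≤ wt σ * ind {p | IsFr p σ} q := fun σ => by
    refine mul_nonneg (wt_nonneg σ) ?_
    rcases ind_zero_or_one {p | IsFr p σ} q with h | h <;> rw [h]
    exact zero_le_one
  by_cases hq : q ∈ FrIn C
  · obtain ⟨σ, hσ, hf⟩ := hq
    have h1 : ind (FrIn C) q = 1 := by
      unfold ind
      rw [Set.indicator_of_mem (show q ∈ FrIn C from ⟨σ, hσ, hf⟩)]
    rw [h1, ← sum_wt σ]
    calc ∑ τ ∈ univ.filter (fun τ => IsConj σ τ), wt τ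
        = ∑ τ ∈ univ.filter (fun τ => IsConj σ τ), wt τ * ind {p | IsFr p τ} q := by
          refine sum_congr rfl fun τ hτ => ?_
          have h2 : ind {p | IsFr p τ} q = 1 := by
            unfold ind
            rw [Set.indicator_of_mem (show q ∈ {p | IsFr p τ} from isFr_conj (mem_filter.1 hτ).2 hf)]
          rw [h2, mul_one]
      _ ≤ _ := by
          refine sum_le_sum_of_subset_of_nonneg (fun τ hτ => ?_) fun τ _ _ => hnn τ
          exact mem_filter.2 ⟨mem_univ _, hC σ τ (mem_filter.1 hτ).2 hσ⟩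
  · have h1 : ind (FrIn C) q = 0 := by
      unfold ind
      rw [Set.indicator_of_notMem hq]
    rw [h1]
    exact sum_nonneg fun σ _ => hnn σ

open Classical in
/-- the upper bound for the count of `FrIn C` -/
theorem cnt_frIn_le {C : Set (L ≃ₐ[ℚ] L)} (hC : Stab C) (X : ℕ) :
    cnt (FrIn C) X ≤ ∑ σ ∈ univ.filter (fun σ => σ ∈ C), wt σ * cnt {p | IsFr p σ} X := by
  simp only [cnt_eq_sum, mul_sum]
  rw [sum_comm]
  exact sum_le_sum fun q _ => ind_frIn_le hC q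

open Classical in
/-- the limit of the upper bound -/
theorem upper_lim [IsGalois ℚ L] (C : Set (L ≃ₐ[ℚ] L)) :
    Tendsto (fun X : ℕ => (∑ σ ∈ univ.filter (fun σ => σ ∈ C), wt σ * cnt {p | IsFr p σ} X) / (Nat.primeCounting X : ℝ))
      atTop (𝓝 (mu C)) := by
  have h1 : Tendsto (fun X : ℕ => ∑ σ ∈ univ.filter (fun σ => σ ∈ C),
      wt σ * (cnt {p | IsFr p σ} X / (Nat.primeCounting X : ℝ))) atTop
      (𝓝 (∑ σ ∈ univ.filter (fun σ : L ≃ₐ[ℚ] L => σ ∈ C),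
        wt σ * ((Set.ncard {τ : L ≃ₐ[ℚ] L | IsConj σ τ} : ℝ) / (Nat.card (L ≃ₐ[ℚ] L) : ℝ)))) :=
    tendsto_finsetSum _ fun σ _ => (dens_isFr σ).const_mul _
  have h2 : (∑ σ ∈ univ.filter (fun σ : L ≃ₐ[ℚ] L => σ ∈ C),
        wt σ * ((Set.ncard {τ : L ≃ₐ[ℚ] L | IsConj σ τ} : ℝ) / (Nat.card (L ≃ₐ[ℚ] L) : ℝ))) = mu C := by
    have h3 : ∀ σ : L ≃ₐ[ℚ] L, wt σ * ((Set.ncard {τ : L ≃ₐ[ℚ] L | IsConj σ τ} : ℝ) / (Nat.card (L ≃ₐ[ℚ] L) : ℝ)) =
        1 / (Nat.card (L ≃ₐ[ℚ] L) : ℝ) := by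
      intro σ
      unfold wt
      have : (Set.ncard {τ : L ≃ₐ[ℚ] L | IsConj σ τ} : ℝ) ≠ 0 := by
        have : 0 < Set.ncard {τ : L ≃ₐ[ℚ] L | IsConj σ τ} :=
          (Set.ncard_pos (Set.toFinite _)).2 ⟨σ, IsConj.refl σ⟩
        exact_mod_cast this.ne'
      field_simp
    rw [sum_congr rfl (fun σ _ => h3 σ), sum_const, nsmul_eq_mul]
    unfold mu
    have h4 : C.ncard = #(univ.filter (fun σ : L ≃ₐ[ℚ] L => σ ∈ C)) := by
      rw [← Set.ncard_coe_finset]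
      congr 1
      ext τ
      simp
    rw [h4]
    ring
  rw [← h2]
  refine h1.congr fun X => ?_
  rw [sum_div]
  exact sum_congr rfl fun σ _ => by ring

theorem exists_isFr [IsGalois ℚ L] {p : ℕ} (hp : p.Prime) : ∃ σ : L ≃ₐ[ℚ] L, IsFr p σ := by
  have hc : CharZero L := algebraRat.charZero L
  obtain rfl : alg = DivisionRing.toRatAlgebra := Subsingleton.elim _ _
  have hn : NumberField L := ⟨⟩
  obtain ⟨M, hM, hpM⟩ : ∃ M : Ideal (𝓞 L), M.IsMaximal ∧ (p : 𝓞 L) ∈ M := by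
    have hne : Ideal.span {(p : 𝓞 L)} ≠ ⊤ := by
      intro h
      have h1 := Ideal.absNorm_span_natCast (S := 𝓞 L) p
      rw [h, Ideal.absNorm_top] at h1
      exact (Nat.one_lt_pow Module.finrank_pos.ne' hp.one_lt).ne h1
    obtain ⟨M, hM, hle⟩ := Ideal.exists_le_maximal _ hne
    exact ⟨M, hM, hle (Ideal.mem_span_singleton_self _)⟩
  have hbot : M ≠ ⊥ := by
    rintro rfl
    rw [Ideal.mem_bot] at hpM
    exact hp.ne_zero (by exact_mod_cast hpM)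
  obtain ⟨σ, hσ⟩ := CHEB.frAt_exists (K := ℚ) (L := L) ⟨M, hM.isPrime, hbot⟩
  refine ⟨σ, M, hM.isPrime, hpM, fun y => ?_⟩
  have h1 := hσ y
  rwa [CHEB.Nm_of_mem hp hpM] at h1

theorem prime_mem_frIn [IsGalois ℚ L] (C : Set (L ≃ₐ[ℚ] L)) {p : ℕ} (hp : p.Prime) : p ∈ FrIn C ∪ FrIn Cᶜ := by
  obtain ⟨σ, h⟩ := exists_isFr (L := L) hp
  by_cases hσ : σ ∈ C
  · exact Or.inl ⟨σ, hσ, h⟩
  · exact Or.inr ⟨σ, hσ, h⟩

theorem cnt_compl_le [IsGalois ℚ L] (C : Set (L ≃ₐ[ℚ] L)) (X : ℕ) :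
    (Nat.primeCounting X : ℝ) ≤ cnt (FrIn C) X + cnt (FrIn Cᶜ) X := by
  rw [← cnt_univ, ← cnt_union_add_inter]
  have h1 : cnt Set.univ X ≤ cnt (FrIn C ∪ FrIn Cᶜ) X := cnt_mono (fun p _ hp => prime_mem_frIn C hp) X
  linarith [cnt_nonneg (FrIn C ∩ FrIn Cᶜ) X]

/-- Chebotarev for a conjugation-stable set. -/
theorem dens_frIn [IsGalois ℚ L] {C : Set (L ≃ₐ[ℚ] L)} (hC : Stab C) : HasDens (FrIn C) (mu C) := by
  classical
  have h2 := (upper_lim Cᶜ).const_sub 1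
  rw [mu_compl, sub_sub_cancel] at h2
  refine tendsto_of_tendsto_of_tendsto_of_le_of_le' h2 (upper_lim C) ?_ ?_
  · filter_upwards [ev_pi_pos] with X hX
    rw [sub_le_iff_le_add, ← add_div, le_div_iff₀ hX, one_mul]
    refine (cnt_compl_le C X).trans ?_
    exact add_le_add le_rfl (cnt_frIn_le (stab_compl hC) X)
  · exact Eventually.of_forall fun X => div_le_div_of_nonneg_right (cnt_frIn_le hC X) (Nat.cast_nonneg _)

theorem dens_null [IsGalois ℚ L] {C : Set (L ≃ₐ[ℚ] L)} (hC : Stab C) : HasDens (FrIn C ∩ FrIn Cᶜ) 0 := by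
  refine hasDens_inter_zero (dens_frIn hC) ?_ fun p hp => prime_mem_frIn C hp
  have := dens_frIn (stab_compl hC)
  rwa [mu_compl] at this

end H6E
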