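import Pool.Agent.Lib.H6E.A2

/-!
# Two linearly disjoint Galois extensions: the Frobenius conditions are independent
-/

namespace H6E

open Finset Filter Topology NumberField

section restrict

variable {L K : Type} [Field L] [Algebra ℚ L] [Field K] [Algebra ℚ K] [Algebra L K] [IsScalarTower ℚ L K]
  [IsGalois ℚ L]

theorem algebraMap_restrict (σ : K ≃ₐ[ℚ] K) (y : 𝓞 L) :
    algebraMap (𝓞 L) (𝓞 K) ((AlgEquiv.restrictNormalHom L σ) • y) = σ • algebraMap (𝓞 L) (𝓞 K) y := by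
  apply RingOfIntegers.ext
  exact AlgEquiv.restrictNormal_commutes σ L (y : L)

theorem isFr_restrict {p : ℕ} {σ : K ≃ₐ[ℚ] K} (h : IsFr p σ) : IsFr p (AlgEquiv.restrictNormalHom L σ) := by
  obtain ⟨W, hW, hp, hσ⟩ := h
  refine ⟨W.comap (algebraMap (𝓞 L) (𝓞 K)), Ideal.comap_isPrime _ _, ?_, fun y => ?_⟩
  · rw [Ideal.mem_comap, map_natCast]
    exact hp
  · rw [Ideal.mem_comap, map_sub, map_pow, algebraMap_restrict]
    exact hσ _

end restrict

section pair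

variable {L L' K : Type} [Field L] [Algebra ℚ L] [Field L'] [Algebra ℚ L'] [Field K] [Algebra ℚ K]
  [Algebra L K] [IsScalarTower ℚ L K] [Algebra L' K] [IsScalarTower ℚ L' K] [IsGalois ℚ L] [IsGalois ℚ L']

/-- restriction to both fields -/
noncomputable def res2 (L L' K : Type) [Field L] [Algebra ℚ L] [Field L'] [Algebra ℚ L'] [Field K] [Algebra ℚ K]
    [Algebra L K] [IsScalarTower ℚ L K] [Algebra L' K] [IsScalarTower ℚ L' K] [IsGalois ℚ L] [IsGalois ℚ L'] :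
    (K ≃ₐ[ℚ] K) →* (L ≃ₐ[ℚ] L) × (L' ≃ₐ[ℚ] L') :=
  (AlgEquiv.restrictNormalHom L).prod (AlgEquiv.restrictNormalHom L')

/-- the set of the automorphisms of `K` with restrictions in `C` and `C'` -/
def Dset (K : Type) [Field K] [Algebra ℚ K] [Algebra L K] [IsScalarTower ℚ L K] [Algebra L' K] [IsScalarTower ℚ L' K]
    (C : Set (L ≃ₐ[ℚ] L)) (C' : Set (L' ≃ₐ[ℚ] L')) : Set (K ≃ₐ[ℚ] K) :=
  {σ | AlgEquiv.restrictNormalHom L σ ∈ C ∧ AlgEquiv.restrictNormalHom L' σ ∈ C'}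

theorem stab_Dset {C : Set (L ≃ₐ[ℚ] L)} {C' : Set (L' ≃ₐ[ℚ] L')} (hC : Stab C) (hC' : Stab C') :
    Stab (Dset K C C') := by
  intro σ τ h hσ
  exact ⟨hC _ _ (MonoidHom.map_isConj (AlgEquiv.restrictNormalHom L) h) hσ.1,
    hC' _ _ (MonoidHom.map_isConj (AlgEquiv.restrictNormalHom L') h) hσ.2⟩

theorem mu_Dset (hb : Function.Bijective (res2 L L' K)) (C : Set (L ≃ₐ[ℚ] L)) (C' : Set (L' ≃ₐ[ℚ] L')) :
    mu (Dset K C C') = mu C * mu C' := by
  have h1 : (Dset K C C').ncard = C.ncard * C'.ncard := by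
    rw [← Set.ncard_prod, ← Set.ncard_image_of_injective (Dset K C C') hb.1]
    congr 1
    ext ⟨a, b⟩
    constructor
    · rintro ⟨σ, hσ, hab⟩
      rw [← hab]
      exact hσ
    · rintro hab
      obtain ⟨σ, hσ⟩ := hb.2 (a, b)
      have h2 : AlgEquiv.restrictNormalHom L σ = a := congrArg Prod.fst hσ
      have h3 : AlgEquiv.restrictNormalHom L' σ = b := congrArg Prod.snd hσ
      refine ⟨σ, ⟨?_, ?_⟩, hσ⟩
      · rw [h2]
        exact hab.1
      · rw [h3]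
        exact hab.2
  have h2 : Nat.card (K ≃ₐ[ℚ] K) = Nat.card (L ≃ₐ[ℚ] L) * Nat.card (L' ≃ₐ[ℚ] L') := by
    rw [← Nat.card_prod]
    exact Nat.card_congr (Equiv.ofBijective _ hb)
  unfold mu
  rw [h1, h2]
  push_cast
  rw [mul_div_mul_comm]

theorem dens_pair [FiniteDimensional ℚ L] [FiniteDimensional ℚ L'] [FiniteDimensional ℚ K] [IsGalois ℚ K] (hb : Function.Bijective (res2 L L' K)) {C : Set (L ≃ₐ[ℚ] L)} {C' : Set (L' ≃ₐ[ℚ] L')}
    (hC : Stab C) (hC' : Stab C') : HasDens (FrIn C ∩ FrIn C') (mu C * mu C') := by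
  have hD := stab_Dset (K := K) hC hC'
  have h1 := dens_frIn hD
  rw [mu_Dset hb] at h1
  have h2 := ((dens_frIn (stab_compl hD)).const_sub 1).add ((dens_null hC).add (dens_null hC'))
  rw [mu_compl, mu_Dset hb, sub_sub_cancel, add_zero, add_zero] at h2
  refine tendsto_of_tendsto_of_tendsto_of_le_of_le' h1 h2 ?_ ?_
  · refine Eventually.of_forall fun X => div_le_div_of_nonneg_right (cnt_mono ?_ X) (Nat.cast_nonneg _)
    rintro p ⟨σ, hσ, hf⟩ _
    exact ⟨⟨_, hσ.1, isFr_restrict hf⟩, ⟨_, hσ.2, isFr_restrict hf⟩⟩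
  · filter_upwards [ev_pi_pos] with X hX
    have e1 : (1 : ℝ) = (Nat.primeCounting X : ℝ) / Nat.primeCounting X := (div_self hX.ne').symm
    rw [← add_div, e1, ← sub_div, ← add_div]
    refine div_le_div_of_nonneg_right ?_ hX.le
    -- `A ∩ A'` and `FrIn Dᶜ` meet only in the two null sets
    have e2 := cnt_union_add_inter (FrIn C ∩ FrIn C') (FrIn (Dset K C C')ᶜ) X
    have e3 := cnt_le_pi ((FrIn C ∩ FrIn C') ∪ FrIn (Dset K C C')ᶜ) X
    have e4 : cnt ((FrIn C ∩ FrIn C') ∩ FrIn (Dset K C C')ᶜ) X ≤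
        cnt (FrIn C ∩ FrIn Cᶜ) X + cnt (FrIn C' ∩ FrIn C'ᶜ) X := by
      rw [← cnt_union_add_inter]
      refine le_trans (cnt_mono ?_ X) (le_add_of_nonneg_right (cnt_nonneg _ _))
      rintro p ⟨⟨h3, h4⟩, σ, hσ, hf⟩ _
      by_cases h5 : AlgEquiv.restrictNormalHom L σ ∈ C
      · right
        refine ⟨h4, _, fun h6 => hσ ⟨h5, h6⟩, isFr_restrict hf⟩
      · left
        exact ⟨h3, _, h5, isFr_restrict hf⟩
    linarith

end pair

end H6E
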