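import Pool.Agent.Lib.H6E.A3

/-!
# A set of primes meets the Frobenius classes of almost all Galois extensions in the right proportion
-/

namespace H6E

open Finset Filter Topology NumberField

attribute [-instance] DivisionRing.toRatAlgebra SubfieldClass.instSMulRat

/-- pairwise disjoint sequences in a lattice -/
theorem exists_seq {α : Type*} [Lattice α] [OrderBot α] (P Q : α → Prop) (hbot : P ⊥)
    (hsup : ∀ a b, P a → P b → P (a ⊔ b)) (h : ∀ M, P M → ∃ L, P L ∧ Q L ∧ L ⊓ M = ⊥) (m : ℕ) :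
    ∃ (L : ℕ → α) (M : α), P M ∧ (∀ i < m, P (L i) ∧ Q (L i) ∧ L i ≤ M) ∧
      ∀ i < m, ∀ j < m, i ≠ j → L i ⊓ L j = ⊥ := by
  induction m with
  | zero => exact ⟨fun _ => ⊥, ⊥, hbot, fun i hi => absurd hi (Nat.not_lt_zero i), fun i hi => absurd hi (Nat.not_lt_zero i)⟩
  | succ m ih =>
    obtain ⟨L, M, hM, h1, h2⟩ := ih
    obtain ⟨L', hP, hQ, hd⟩ := h M hM
    have e1 : ∀ i < m, Function.update L m L' i = L i := fun i hi => Function.update_of_ne hi.ne _ _
    have e2 : Function.update L m L' m = L' := Function.update_self _ _ _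
    have e3 : ∀ i < m, L i ⊓ L' = ⊥ := fun i hi => by
      have h3 : L i ⊓ L' ≤ L' ⊓ M := le_inf inf_le_right (inf_le_left.trans (h1 i hi).2.2)
      rw [hd] at h3
      exact le_bot_iff.1 h3
    refine ⟨Function.update L m L', M ⊔ L', hsup _ _ hM hP, fun i hi => ?_, fun i hi j hj hij => ?_⟩
    · rcases Nat.lt_succ_iff_lt_or_eq.1 hi with h4 | h4
      · rw [e1 i h4]
        exact ⟨(h1 i h4).1, (h1 i h4).2.1, (h1 i h4).2.2.trans le_sup_left⟩
      · subst h4
        rw [e2]
        exact ⟨hP, hQ, le_sup_right⟩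
    · rcases Nat.lt_succ_iff_lt_or_eq.1 hi with h4 | h4 <;> rcases Nat.lt_succ_iff_lt_or_eq.1 hj with h5 | h5
      · rw [e1 i h4, e1 j h5]
        exact h2 i h4 j h5 hij
      · subst h5
        rw [e1 i h4, e2]
        exact e3 i h4
      · subst h4
        rw [e1 j h5, e2, inf_comm]
        exact e3 j h5
      · exact absurd (h4.trans h5.symm) hij

variable {Ω : Type} [Field Ω] [Algebra ℚ Ω]

theorem dens_pair_if [IsAlgClosure ℚ Ω] (L L' : IntermediateField ℚ Ω) [FiniteDimensional ℚ L] [FiniteDimensional ℚ L'] [IsGalois ℚ L]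
    [IsGalois ℚ L'] (h : L ⊓ L' = ⊥) {C : Set (L ≃ₐ[ℚ] L)} {C' : Set (L' ≃ₐ[ℚ] L')} (hC : Stab C) (hC' : Stab C') :
    HasDens (FrIn C ∩ FrIn C') (mu C * mu C') := by
  have hΩ : Normal ℚ Ω := IsAlgClosure.normal ℚ Ω
  have hKf : FiniteDimensional ℚ (L ⊔ L' : IntermediateField ℚ Ω) := inferInstance
  have hKn : Normal ℚ (L ⊔ L' : IntermediateField ℚ Ω) := inferInstance
  have hKg : IsGalois ℚ (L ⊔ L' : IntermediateField ℚ Ω) := ⟨⟩
  letI a1 : Algebra L (L ⊔ L' : IntermediateField ℚ Ω) :=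
    (IntermediateField.inclusion (le_sup_left : L ≤ L ⊔ L')).toRingHom.toAlgebra
  letI a2 : Algebra L' (L ⊔ L' : IntermediateField ℚ Ω) :=
    (IntermediateField.inclusion (le_sup_right : L' ≤ L ⊔ L')).toRingHom.toAlgebra
  haveI t1 : IsScalarTower ℚ L (L ⊔ L' : IntermediateField ℚ Ω) := IsScalarTower.of_algebraMap_eq fun x => rfl
  haveI t2 : IsScalarTower ℚ L' (L ⊔ L' : IntermediateField ℚ Ω) := IsScalarTower.of_algebraMap_eq fun x => rfl
  have hb : Function.Bijective (res2 L L' (L ⊔ L' : IntermediateField ℚ Ω)) := by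
    rw [Nat.bijective_iff_injective_and_card]
    refine ⟨?_, ?_⟩
    · rw [injective_iff_map_eq_one]
      intro σ hσ
      have h1 : AlgEquiv.restrictNormalHom L σ = 1 := congrArg Prod.fst hσ
      have h2 : AlgEquiv.restrictNormalHom L' σ = 1 := congrArg Prod.snd hσ
      obtain ⟨τ, rfl⟩ := AlgEquiv.restrictNormalHom_surjective (F := ℚ) (K₁ := (L ⊔ L' : IntermediateField ℚ Ω)) Ω σ
      have h3 : τ ∈ L.fixingSubgroup := by
        rw [IntermediateField.mem_fixingSubgroup_iff]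
        intro x hx
        have e1 := AlgEquiv.restrictNormal_commutes
          (AlgEquiv.restrictNormalHom (L ⊔ L' : IntermediateField ℚ Ω) τ) L (⟨x, hx⟩ : L)
        have e2 : (AlgEquiv.restrictNormalHom (L ⊔ L' : IntermediateField ℚ Ω) τ).restrictNormal L = 1 := h1
        rw [e2] at e1
        have e3 := congrArg (fun y : (L ⊔ L' : IntermediateField ℚ Ω) => (y : Ω)) e1
        have e4 := AlgEquiv.restrictNormalHom_apply (L ⊔ L' : IntermediateField ℚ Ω) τ
          (algebraMap L (L ⊔ L' : IntermediateField ℚ Ω) ⟨x, hx⟩)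
        exact (e3.trans e4).symm
      have h4 : τ ∈ L'.fixingSubgroup := by
        rw [IntermediateField.mem_fixingSubgroup_iff]
        intro x hx
        have e1 := AlgEquiv.restrictNormal_commutes
          (AlgEquiv.restrictNormalHom (L ⊔ L' : IntermediateField ℚ Ω) τ) L' (⟨x, hx⟩ : L')
        have e2 : (AlgEquiv.restrictNormalHom (L ⊔ L' : IntermediateField ℚ Ω) τ).restrictNormal L' = 1 := h2
        rw [e2] at e1
        have e3 := congrArg (fun y : (L ⊔ L' : IntermediateField ℚ Ω) => (y : Ω)) e1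
        have e4 := AlgEquiv.restrictNormalHom_apply (L ⊔ L' : IntermediateField ℚ Ω) τ
          (algebraMap L' (L ⊔ L' : IntermediateField ℚ Ω) ⟨x, hx⟩)
        exact (e3.trans e4).symm
      have h5 : τ ∈ (L ⊔ L').fixingSubgroup := by
        rw [IntermediateField.fixingSubgroup_sup]
        exact ⟨h3, h4⟩
      rw [IntermediateField.mem_fixingSubgroup_iff] at h5
      ext x
      rw [AlgEquiv.restrictNormalHom_apply]
      exact h5 x x.2
    · rw [Nat.card_prod, IsGalois.card_aut_eq_finrank, IsGalois.card_aut_eq_finrank, IsGalois.card_aut_eq_finrank]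
      exact (IntermediateField.LinearDisjoint.of_inf_eq_bot h).finrank_sup
  exact dens_pair hb hC hC'

/-- For every set `S` of primes and `η > 0` there is a number field `M` such that for all Galois `L` with `L ∩ M = ℚ`
there are arbitrarily large `X` at which every Frobenius class of `L` contains its proportion of `S`, up to `η`. -/
theorem indep [IsAlgClosure ℚ Ω] (S : Set ℕ) {η : ℝ} (hη : 0 < η) : ∃ M : IntermediateField ℚ Ω, FiniteDimensional ℚ M ∧
    ∀ L : IntermediateField ℚ Ω, FiniteDimensional ℚ L → IsGalois ℚ L → L ⊓ M = ⊥ →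
      ∃ᶠ X : ℕ in atTop, ∀ C : Set (L ≃ₐ[ℚ] L), Stab C →
        mu C * cnt S X - η * Nat.primeCounting X ≤ cnt (S ∩ FrIn C) X := by
  by_contra hcon
  push Not at hcon
  obtain ⟨m, hm⟩ := exists_nat_gt (1 / 3 / η ^ 2)
  obtain ⟨L, M, _, h1, h2⟩ := exists_seq (fun M : IntermediateField ℚ Ω => FiniteDimensional ℚ M)
    (fun L => IsGalois ℚ L ∧ ∀ᶠ X : ℕ in atTop, ∃ C : Set (L ≃ₐ[ℚ] L), Stab C ∧
        cnt (S ∩ FrIn C) X < mu C * cnt S X - η * Nat.primeCounting X)
    inferInstance (fun a b ha hb => inferInstance) (fun M hM => by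
      obtain ⟨L, hL1, hL2, hL3, hL4⟩ := hcon M hM
      exact ⟨L, hL1, ⟨hL2, hL4⟩, hL3⟩) m
  have i1 : ∀ i : Fin m, FiniteDimensional ℚ (L i) := fun i => (h1 i i.2).1
  have i2 : ∀ i : Fin m, IsGalois ℚ (L i) := fun i => (h1 i i.2).2.1.1
  have h3 := few_bad (m := m) S (fun i => {C : Set (L i ≃ₐ[ℚ] L i) // Stab C}) (fun i C => FrIn C.1)
    (fun i C => mu C.1) (fun i C => mu_nonneg _) (fun i C => mu_le_one _) (fun i C => dens_frIn C.2)
    (fun i j hij C D => dens_pair_if (L i) (L j) (h2 i i.2 j j.2 fun h => hij (Fin.ext h)) C.2 D.2) hη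
    (fun i => (h1 i i.2).2.1.2.mono fun X ⟨C, hC, h⟩ => ⟨⟨C, hC⟩, h.le⟩)
  have hη2 : 0 < η ^ 2 := by positivity
  rw [div_lt_iff₀ hη2] at hm
  linarith

end H6E
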