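import Pool.Agent.Lib.H6E.A4

/-!
# The same with the algebraic closure of `ℚ` and its standard instances
-/

namespace H6E

open Finset Filter Topology NumberField

theorem isAlgClosure_Qb : IsAlgClosure ℚ (AlgebraicClosure ℚ) :=
  (inferInstance : @IsAlgClosure ℚ (AlgebraicClosure ℚ) _ _ (AlgebraicClosure.instAlgebra ℚ) _)

theorem indepQb (S : Set ℕ) {η : ℝ} (hη : 0 < η) : ∃ M : IntermediateField ℚ (AlgebraicClosure ℚ), NumberField M ∧
    ∀ L : IntermediateField ℚ (AlgebraicClosure ℚ), NumberField L → IsGalois ℚ L → L ⊓ M = ⊥ →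
      ∃ᶠ X : ℕ in atTop, ∀ C : Set (L ≃ₐ[ℚ] L), (∀ σ τ, IsConj σ τ → σ ∈ C → τ ∈ C) →
        mu C * cnt S X - η * Nat.primeCounting X ≤ cnt (S ∩ FrIn C) X := by
  haveI := isAlgClosure_Qb
  obtain ⟨M, hM, h⟩ := indep (Ω := AlgebraicClosure ℚ) S hη
  refine ⟨M, ?_, fun L hL hG hd => ?_⟩
  · exact ⟨⟩
  · exact h L hL.to_finiteDimensional hG hd

end H6E
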