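import Pool.Agent.Lib.H6E.A4

/-!
# Bessel's inequality for the Frobenius classes of pairwise linearly disjoint fields
-/

namespace H6E

open Finset Filter Topology NumberField

theorem sm_pair_abs {Q : Finset ℕ} {a b : ℕ → ℝ} {α β θ : ℝ} (hα0 : 0 ≤ α) (hα1 : α ≤ 1) (hβ0 : 0 ≤ β) (hβ1 : β ≤ 1)
    (ha : |∑ q ∈ Q, a q - α * #Q| ≤ θ * #Q) (hb : |∑ q ∈ Q, b q - β * #Q| ≤ θ * #Q)
    (hab : |∑ q ∈ Q, a q * b q - α * β * #Q| ≤ θ * #Q) :
    |∑ q ∈ Q, (a q - α) * (b q - β)| ≤ 3 * θ * #Q := by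
  have e : ∑ q ∈ Q, (a q - α) * (b q - β) = (∑ q ∈ Q, a q * b q - α * β * #Q) - β * (∑ q ∈ Q, a q - α * #Q)
      - α * (∑ q ∈ Q, b q - β * #Q) := by
    have h1 : ∑ q ∈ Q, (a q - α) * (b q - β) = ∑ q ∈ Q, (a q * b q - β * a q - α * b q + α * β) :=
      sum_congr rfl fun q _ => by ring
    rw [h1, sum_add_distrib, sum_sub_distrib, sum_sub_distrib, ← mul_sum, ← mul_sum, sum_const, nsmul_eq_mul]
    ring
  rw [e]
  have h1 : |β * (∑ q ∈ Q, a q - α * #Q)| ≤ 1 * (θ * #Q) := by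
    rw [abs_mul]
    exact mul_le_mul (by rw [abs_of_nonneg hβ0]; exact hβ1) ha (abs_nonneg _) zero_le_one
  have h2 : |α * (∑ q ∈ Q, b q - β * #Q)| ≤ 1 * (θ * #Q) := by
    rw [abs_mul]
    exact mul_le_mul (by rw [abs_of_nonneg hα0]; exact hα1) hb (abs_nonneg _) zero_le_one
  have h3 := abs_le.1 hab
  have h4 := abs_le.1 h1
  have h5 := abs_le.1 h2
  rw [abs_le]
  constructor <;> linarith [h3.1, h3.2, h4.1, h4.2, h5.1, h5.2]

theorem sm_diag2 {Q : Finset ℕ} {a : ℕ → ℝ} {α θ : ℝ} (ha : ∀ q, a q = 0 ∨ a q = 1) (hα0 : 0 ≤ α) (hα1 : α ≤ 1)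
    (hθ : 0 ≤ θ) (h1 : |∑ q ∈ Q, a q - α * #Q| ≤ θ * #Q) :
    ∑ q ∈ Q, (a q - α) * (a q - α) ≤ α * (1 - α) * #Q + 3 * θ * #Q := by
  have e : ∑ q ∈ Q, (a q - α) * (a q - α) = (1 - 2 * α) * ∑ q ∈ Q, a q + α ^ 2 * #Q := by
    rw [mul_sum]
    have : (α ^ 2 * (#Q : ℝ)) = ∑ q ∈ Q, α ^ 2 := by rw [sum_const, nsmul_eq_mul]; ring
    rw [this, ← sum_add_distrib]
    refine sum_congr rfl fun q _ => ?_
    rcases ha q with h | h <;> rw [h] <;> ring
  rw [e]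
  have hn : (0 : ℝ) ≤ #Q := Nat.cast_nonneg _
  have h3 : |(1 - 2 * α) * (∑ q ∈ Q, a q - α * #Q)| ≤ 1 * (θ * #Q) := by
    rw [abs_mul]
    exact mul_le_mul (by rw [abs_le]; constructor <;> linarith) h1 (abs_nonneg _) zero_le_one
  have h4 := (abs_le.1 h3).2
  nlinarith [h4, mul_nonneg hθ hn]

/-- Bessel's inequality for almost orthogonal indicator functions on a finite set. -/
theorem bessel {J : Type*} [Fintype J] [DecidableEq J] {Q S : Finset ℕ} (hSQ : S ⊆ Q) (hQ : 0 < #Q) {a : J → ℕ → ℝ}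
    {α : J → ℝ} {θ K δ : ℝ} (hδ : 0 < δ) (ha : ∀ i q, a i q = 0 ∨ a i q = 1) (hα0 : ∀ i, 0 < α i)
    (hα1 : ∀ i, α i < 1) (hK0 : 0 ≤ K) (hK : ∀ i, 1 / (α i * (1 - α i)) ≤ K) (hθ : 0 ≤ θ)
    (h1 : ∀ i, |∑ q ∈ Q, a i q - α i * #Q| ≤ θ * #Q)
    (h2 : ∀ i j, i ≠ j → |∑ q ∈ Q, a i q * a j q - α i * α j * #Q| ≤ θ * #Q) (hS : δ * #Q ≤ #S) :
    δ * (1 + ∑ i, (∑ q ∈ S, a i q - α i * #S) ^ 2 / (α i * (1 - α i) * (#S : ℝ) ^ 2)) ^ 2 ≤
      (1 + ∑ i, (∑ q ∈ S, a i q - α i * #S) ^ 2 / (α i * (1 - α i) * (#S : ℝ) ^ 2)) +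
        θ * (2 * (K * Fintype.card J) + 3 * (K * Fintype.card J) ^ 2) := by
  have hn : (0 : ℝ) < #Q := by exact_mod_cast hQ
  have hs : (0 : ℝ) < #S := lt_of_lt_of_le (mul_pos hδ hn) hS
  have hv : ∀ i, 0 < α i * (1 - α i) := fun i => mul_pos (hα0 i) (by linarith [hα1 i])
  have hD : ∀ i, ∑ q ∈ S, (a i q - α i) = ∑ q ∈ S, a i q - α i * #S := fun i => by
    rw [sum_sub_distrib, sum_const, nsmul_eq_mul, mul_comm (#S : ℝ)]
  have hQ1 : ∀ i, ∑ q ∈ Q, (a i q - α i) = ∑ q ∈ Q, a i q - α i * #Q := fun i => by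
    rw [sum_sub_distrib, sum_const, nsmul_eq_mul, mul_comm (#Q : ℝ)]
  have hDb : ∀ i, |∑ q ∈ S, a i q - α i * #S| ≤ #S := fun i => by
    rw [← hD]
    refine (abs_sum_le_sum_abs _ _).trans ?_
    calc ∑ q ∈ S, |a i q - α i| ≤ ∑ q ∈ S, (1 : ℝ) := sum_le_sum fun q _ => by
          rcases ha i q with h | h <;> rw [h, abs_le] <;> constructor <;> linarith [hα0 i, hα1 i]
      _ = #S := by simp
  obtain ⟨c, hc⟩ : ∃ c : J → ℝ, ∀ i, c i = (∑ q ∈ S, a i q - α i * #S) / (α i * (1 - α i) * #S) := ⟨_, fun i => rfl⟩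
  have hcK : ∀ i, |c i| ≤ K := fun i => by
    rw [hc, abs_div, abs_of_pos (mul_pos (hv i) hs)]
    refine le_trans ?_ (hK i)
    rw [div_le_div_iff₀ (mul_pos (hv i) hs) (hv i)]
    nlinarith [hDb i, hv i]
  have hcc : ∀ i j, |c i * c j| ≤ K ^ 2 := fun i j => by
    rw [abs_mul, sq]
    exact mul_le_mul (hcK i) (hcK j) (abs_nonneg _) ((abs_nonneg _).trans (hcK i))
  obtain ⟨V, hV⟩ : ∃ V : ℝ, V = ∑ i, (∑ q ∈ S, a i q - α i * #S) ^ 2 / (α i * (1 - α i) * (#S : ℝ) ^ 2) := ⟨_, rfl⟩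
  rw [← hV]
  have hV1 : ∑ i, c i ^ 2 * (α i * (1 - α i)) = V := by
    rw [hV]
    refine sum_congr rfl fun i _ => ?_
    rw [hc]
    have h3 := (hv i).ne'
    have h4 := hs.ne'
    obtain ⟨w, hw⟩ : ∃ w : ℝ, w = α i * (1 - α i) := ⟨_, rfl⟩
    rw [← hw] at h3 ⊢
    field_simp
  have hV2 : ∑ i, c i * (∑ q ∈ S, a i q - α i * #S) = #S * V := by
    rw [hV, mul_sum]
    refine sum_congr rfl fun i _ => ?_
    rw [hc]
    have h3 := (hv i).ne'
    have h4 := hs.ne'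
    obtain ⟨w, hw⟩ : ∃ w : ℝ, w = α i * (1 - α i) := ⟨_, rfl⟩
    rw [← hw] at h3 ⊢
    field_simp
  -- the second moment
  have hM : ∑ q ∈ Q, (∑ i, c i * (a i q - α i)) ^ 2 ≤ (V + 3 * θ * (K * Fintype.card J) ^ 2) * #Q := by
    have e : ∑ q ∈ Q, (∑ i, c i * (a i q - α i)) ^ 2 =
        ∑ i, ∑ j, (c i * c j) * ∑ q ∈ Q, (a i q - α i) * (a j q - α j) := by
      simp_rw [sq, sum_mul_sum]
      rw [sum_comm]
      refine sum_congr rfl fun i _ => ?_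
      rw [sum_comm]
      refine sum_congr rfl fun j _ => ?_
      rw [mul_sum]
      exact sum_congr rfl fun q _ => by ring
    rw [e]
    have e2 : ∀ i j : J, (c i * c j) * ∑ q ∈ Q, (a i q - α i) * (a j q - α j) ≤
        (if i = j then c i ^ 2 * (α i * (1 - α i)) * #Q else 0) + 3 * θ * K ^ 2 * #Q := by
      intro i j
      have h0 : (0 : ℝ) ≤ 3 * θ * #Q := by positivity
      split_ifs with h
      · subst h
        have h3 := sm_diag2 (ha i) (hα0 i).le (hα1 i).le hθ (h1 i)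
        have h4 : (c i * c i) * ∑ q ∈ Q, (a i q - α i) * (a i q - α i) ≤
            (c i * c i) * (α i * (1 - α i) * #Q + 3 * θ * #Q) :=
          mul_le_mul_of_nonneg_left h3 (mul_self_nonneg _)
        have h5 : (c i * c i) * (3 * θ * #Q) ≤ K ^ 2 * (3 * θ * #Q) :=
          mul_le_mul_of_nonneg_right ((le_abs_self _).trans (hcc i i)) h0
        calc (c i * c i) * ∑ q ∈ Q, (a i q - α i) * (a i q - α i)
            ≤ (c i * c i) * (α i * (1 - α i) * #Q + 3 * θ * #Q) := h4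
          _ = c i ^ 2 * (α i * (1 - α i)) * #Q + (c i * c i) * (3 * θ * #Q) := by ring
          _ ≤ c i ^ 2 * (α i * (1 - α i)) * #Q + K ^ 2 * (3 * θ * #Q) := by linarith
          _ = _ := by ring
      · rw [zero_add]
        have h3 := sm_pair_abs (hα0 i).le (hα1 i).le (hα0 j).le (hα1 j).le (h1 i) (h1 j) (h2 i j h)
        calc (c i * c j) * ∑ q ∈ Q, (a i q - α i) * (a j q - α j)
            ≤ |(c i * c j) * ∑ q ∈ Q, (a i q - α i) * (a j q - α j)| := le_abs_self _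
          _ = |c i * c j| * |∑ q ∈ Q, (a i q - α i) * (a j q - α j)| := abs_mul _ _
          _ ≤ K ^ 2 * (3 * θ * #Q) := mul_le_mul (hcc i j) h3 (abs_nonneg _) (sq_nonneg _)
          _ = _ := by ring
    calc ∑ i, ∑ j, (c i * c j) * ∑ q ∈ Q, (a i q - α i) * (a j q - α j)
        ≤ ∑ i : J, ∑ j : J, ((if i = j then c i ^ 2 * (α i * (1 - α i)) * #Q else 0) + 3 * θ * K ^ 2 * #Q) :=
          sum_le_sum fun i _ => sum_le_sum fun j _ => e2 i j
      _ = (∑ i, c i ^ 2 * (α i * (1 - α i))) * #Q + 3 * θ * (K * Fintype.card J) ^ 2 * #Q := by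
          simp only [sum_add_distrib, sum_ite_eq, mem_univ, if_true, sum_const, card_univ, nsmul_eq_mul, ← sum_mul]
          ring
      _ = _ := by rw [hV1]; ring
  -- the first moment
  have hF : ∑ q ∈ Q, ∑ i, c i * (a i q - α i) ≤ K * Fintype.card J * θ * #Q := by
    rw [sum_comm]
    calc ∑ i, ∑ q ∈ Q, c i * (a i q - α i) ≤ ∑ i : J, K * (θ * #Q) := by
          refine sum_le_sum fun i _ => ?_
          rw [← mul_sum, hQ1]
          refine (le_abs_self _).trans ?_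
          rw [abs_mul]
          exact mul_le_mul (hcK i) (h1 i) (abs_nonneg _) hK0
      _ = K * Fintype.card J * θ * #Q := by
          rw [sum_const, card_univ, nsmul_eq_mul]
          ring
  have hM1 : ∑ q ∈ Q, (1 + ∑ i, c i * (a i q - α i)) ^ 2 ≤
      (1 + V + θ * (2 * (K * Fintype.card J) + 3 * (K * Fintype.card J) ^ 2)) * #Q := by
    have e : ∑ q ∈ Q, (1 + ∑ i, c i * (a i q - α i)) ^ 2 =
        #Q + 2 * ∑ q ∈ Q, (∑ i, c i * (a i q - α i)) + ∑ q ∈ Q, (∑ i, c i * (a i q - α i)) ^ 2 := by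
      have e1 : (#Q : ℝ) = ∑ q ∈ Q, (1 : ℝ) := by simp
      rw [e1, mul_sum, ← sum_add_distrib, ← sum_add_distrib]
      exact sum_congr rfl fun q _ => by ring
    rw [e]
    linarith [hM, hF]
  -- Cauchy-Schwarz on S
  have hC : (∑ q ∈ S, (1 + ∑ i, c i * (a i q - α i))) ^ 2 ≤ #S * ∑ q ∈ S, (1 + ∑ i, c i * (a i q - α i)) ^ 2 :=
    sq_sum_le_card_mul_sum_sq
  have hS1 : ∑ q ∈ S, (1 + ∑ i, c i * (a i q - α i)) ^ 2 ≤ ∑ q ∈ Q, (1 + ∑ i, c i * (a i q - α i)) ^ 2 :=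
    sum_le_sum_of_subset_of_nonneg hSQ fun q _ _ => sq_nonneg _
  have hL : ∑ q ∈ S, (1 + ∑ i, c i * (a i q - α i)) = #S * (1 + V) := by
    rw [sum_add_distrib, sum_comm, sum_const, nsmul_eq_mul, mul_one, mul_add, mul_one, ← hV2]
    congr 1
    refine sum_congr rfl fun i _ => ?_
    rw [← mul_sum, hD]
  rw [hL] at hC
  have h4 : (#S * (1 + V)) ^ 2 ≤
      #S * ((1 + V + θ * (2 * (K * Fintype.card J) + 3 * (K * Fintype.card J) ^ 2)) * #Q) :=
    hC.trans (mul_le_mul_of_nonneg_left (hS1.trans hM1) hs.le)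
  have h5 : (1 + V) ^ 2 * #S ≤ (1 + V + θ * (2 * (K * Fintype.card J) + 3 * (K * Fintype.card J) ^ 2)) * #Q := by
    refine le_of_mul_le_mul_left ?_ hs
    calc (#S : ℝ) * ((1 + V) ^ 2 * #S) = (#S * (1 + V)) ^ 2 := by ring
      _ ≤ _ := h4
  have h6 : (1 + V) ^ 2 * (δ * #Q) ≤ (1 + V) ^ 2 * #S := mul_le_mul_of_nonneg_left hS (sq_nonneg _)
  have h7 : (δ * (1 + V) ^ 2) * #Q ≤
      (1 + V + θ * (2 * (K * Fintype.card J) + 3 * (K * Fintype.card J) ^ 2)) * #Q := by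
    calc (δ * (1 + V) ^ 2) * #Q = (1 + V) ^ 2 * (δ * #Q) := by ring
      _ ≤ _ := h6.trans h5
  exact le_of_mul_le_mul_right h7 hn

/-- Pairwise independent families of classes which, for `l`-almost all `X`, have a member whose share of `S` is far from
its proportion: the sum of the (normalised) squares of the deviations is at most `1 / δ - 1`. -/
theorem few_bad2 {l : Filter ℕ} [l.NeBot] (hl : l ≤ atTop) {J : Type*} [Fintype J] (S : Set ℕ) (T : J → Type)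
    [∀ i, Finite (T i)] (A : ∀ i, T i → Set ℕ)
    (α : ∀ i, T i → ℝ) (β : J → ℝ) (hα0 : ∀ i t, 0 < α i t) (hα1 : ∀ i t, α i t < 1)
    (h1 : ∀ i t, HasDens (A i t) (α i t)) (h2 : ∀ i j, i ≠ j → ∀ t u, HasDens (A i t ∩ A j u) (α i t * α j u))
    {δ : ℝ} (hδ : 0 < δ) (hS : ∀ᶠ X : ℕ in l, δ * Nat.primeCounting X ≤ cnt S X)
    (h3 : ∀ i, ∀ᶠ X : ℕ in l, ∃ t, β i * (α i t * (1 - α i t)) * cnt S X ^ 2 <
      (cnt (S ∩ A i t) X - α i t * cnt S X) ^ 2) :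
    ∑ i, β i ≤ 1 / δ - 1 := by
  classical
  rw [le_sub_iff_add_le, le_div_iff₀ hδ, add_comm]
  by_contra hcon
  rw [not_le] at hcon
  obtain ⟨E, hE⟩ : ∃ E : ℝ, E = 1 + ∑ i, β i := ⟨_, rfl⟩
  rw [← hE] at hcon
  have hB0 : 0 < E := by
    by_contra h
    have := mul_nonpos_of_nonpos_of_nonneg (not_lt.1 h) hδ.le
    linarith
  have hv : ∀ i t, 0 < α i t * (1 - α i t) := fun i t => mul_pos (hα0 i t) (by linarith [hα1 i t])
  obtain ⟨K, hK0, hK⟩ : ∃ K : ℝ, 0 ≤ K ∧ ∀ i t, 1 / (α i t * (1 - α i t)) ≤ K := by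
    have : ∀ i, Fintype (T i) := fun i => Fintype.ofFinite _
    refine ⟨∑ i, ∑ t, 1 / (α i t * (1 - α i t)), sum_nonneg fun i _ => sum_nonneg fun t _ =>
      (one_div_pos.2 (hv i t)).le, fun i t => ?_⟩
    have e1 : 1 / (α i t * (1 - α i t)) ≤ ∑ t, 1 / (α i t * (1 - α i t)) :=
      single_le_sum (f := fun t => 1 / (α i t * (1 - α i t))) (fun t _ => (one_div_pos.2 (hv i t)).le) (mem_univ t)
    exact e1.trans (single_le_sum (f := fun i => ∑ t, 1 / (α i t * (1 - α i t)))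
      (fun i _ => sum_nonneg fun t _ => (one_div_pos.2 (hv i t)).le) (mem_univ i))
  obtain ⟨R, hR⟩ : ∃ R : ℝ, R = 2 * (K * Fintype.card J) + 3 * (K * Fintype.card J) ^ 2 := ⟨_, rfl⟩
  have hR0 : 0 ≤ R := by rw [hR]; positivity
  obtain ⟨θ, hθ0, hθ⟩ : ∃ θ : ℝ, 0 < θ ∧ θ * R < (E * δ - 1) * E := by
    have hg : 0 < (E * δ - 1) * E := mul_pos (by linarith) hB0
    refine ⟨(E * δ - 1) * E / (R + 1), by positivity, ?_⟩
    rw [div_mul_eq_mul_div, div_lt_iff₀ (by positivity)]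
    nlinarith [hg]
  have e1 : ∀ᶠ X : ℕ in atTop, ∀ i t, |∑ q ∈ PX X, ind (A i t) q - α i t * #(PX X)| ≤ θ * #(PX X) :=
    eventually_all.2 fun i => eventually_all.2 fun t => ev_close (h1 i t) hθ0
  have e2 : ∀ᶠ X : ℕ in atTop, ∀ i j, i ≠ j → ∀ t u,
      |∑ q ∈ PX X, ind (A i t) q * ind (A j u) q - α i t * α j u * #(PX X)| ≤ θ * #(PX X) := by
    refine eventually_all.2 fun i => eventually_all.2 fun j => ?_
    by_cases hij : i = j
    · exact Eventually.of_forall fun X h => absurd hij h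
    · have h4 : ∀ᶠ X : ℕ in atTop, ∀ t u,
          |∑ q ∈ PX X, ind (A i t) q * ind (A j u) q - α i t * α j u * #(PX X)| ≤ θ * #(PX X) := by
        refine eventually_all.2 fun t => eventually_all.2 fun u => ?_
        filter_upwards [ev_close (h2 i j hij t u) hθ0] with X hX
        simp_rw [ind_mul]
        exact hX
      filter_upwards [h4] with X hX _
      exact hX
  have e3 : ∀ᶠ X : ℕ in l, ∀ i, ∃ t, β i * (α i t * (1 - α i t)) * cnt S X ^ 2 <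
      (cnt (S ∩ A i t) X - α i t * cnt S X) ^ 2 := eventually_all.2 h3
  have e4 : ∀ᶠ X : ℕ in atTop, 1 ≤ Nat.primeCounting X := tendsto_pi.eventually (eventually_ge_atTop 1)
  obtain ⟨X, ⟨hX1, hX2, hX4⟩, hX3, hX5⟩ := (((e1.and (e2.and e4)).filter_mono hl).and (e3.and hS)).exists
  choose t ht using hX3
  have hcS : (#((PX X).filter (· ∈ S)) : ℝ) = cnt S X := by
    rw [cnt_eq_sum, ← sum_ind]
  have hcA : ∀ i, ∑ q ∈ (PX X).filter (· ∈ S), ind (A i (t i)) q = cnt (S ∩ A i (t i)) X := fun i => by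
    rw [sum_filter, cnt_eq_sum]
    refine sum_congr rfl fun q _ => ?_
    rw [← ind_mul]
    by_cases hq : q ∈ S <;> simp [ind, hq]
  have h5 := bessel (J := J) (Q := PX X) (S := (PX X).filter (· ∈ S)) (filter_subset _ _)
    (by rw [card_PX]; exact hX4) (a := fun i q => ind (A i (t i)) q) (α := fun i => α i (t i)) (θ := θ) (K := K)
    (δ := δ) hδ (fun i q => ind_zero_or_one _ _) (fun i => hα0 i _) (fun i => hα1 i _) hK0 (fun i => hK i _) hθ0.le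
    (fun i => hX1 i _) (fun i j hij => hX2 i j hij _ _) (by rw [hcS, card_PX]; exact hX5)
  simp only [hcA, hcS] at h5
  rw [← hR] at h5
  have hs : 0 < cnt S X := by
    have e5 : (0 : ℝ) < Nat.primeCounting X := by exact_mod_cast hX4
    exact lt_of_lt_of_le (mul_pos hδ e5) hX5
  have hA : E ≤ 1 + ∑ i, (cnt (S ∩ A i (t i)) X - α i (t i) * cnt S X) ^ 2 /
      (α i (t i) * (1 - α i (t i)) * cnt S X ^ 2) := by
    rw [hE]
    refine add_le_add le_rfl (sum_le_sum fun i _ => ?_)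
    rw [le_div_iff₀ (mul_pos (hv i _) (by positivity)), ← mul_assoc]
    exact (ht i).le
  obtain ⟨V, hV⟩ : ∃ V : ℝ, V = 1 + ∑ i, (cnt (S ∩ A i (t i)) X - α i (t i) * cnt S X) ^ 2 /
    (α i (t i) * (1 - α i (t i)) * cnt S X ^ 2) := ⟨_, rfl⟩
  rw [← hV] at h5 hA
  have h8 : E * V ≤ V * V := mul_le_mul_of_nonneg_right hA (hB0.le.trans hA)
  have h9 : (E * δ - 1) * E ≤ (E * δ - 1) * V := mul_le_mul_of_nonneg_left hA (by linarith)
  have h10 : δ * (E * V) ≤ δ * (V * V) := mul_le_mul_of_nonneg_left h8 hδ.le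
  nlinarith [h5, h9, h10, hθ]

end H6E
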