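import Pool.Agent.Lib.H6E.A6

/-!
# A set of primes of positive lower density along a sequence is equidistributed in the Frobenius classes of almost all
# fields, with an explicit form of the exceptional set
-/

namespace H6E

open Finset Filter Topology NumberField

attribute [-instance] DivisionRing.toRatAlgebra SubfieldClass.instSMulRat

variable {Ω : Type} [Field Ω] [Algebra ℚ Ω]

theorem mu_pos {L : Type} [Field L] [Algebra ℚ L] [FiniteDimensional ℚ L] {C : Set (L ≃ₐ[ℚ] L)} (hC : C.Nonempty) :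
    0 < mu C :=
  div_pos (by exact_mod_cast (Set.ncard_pos (Set.toFinite C)).2 hC) card_pos'

theorem mu_univ {L : Type} [Field L] [Algebra ℚ L] [FiniteDimensional ℚ L] : mu (Set.univ : Set (L ≃ₐ[ℚ] L)) = 1 := by
  have h := mu_compl (∅ : Set (L ≃ₐ[ℚ] L))
  rw [Set.compl_empty] at h
  rw [h]
  simp [mu]

theorem mu_lt_one {L : Type} [Field L] [Algebra ℚ L] [FiniteDimensional ℚ L] {C : Set (L ≃ₐ[ℚ] L)} (hC : C ≠ Set.univ) :
    mu C < 1 := by
  have h := mu_pos (Set.nonempty_compl.2 hC)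
  rw [mu_compl] at h
  linarith

theorem cnt_frIn_univ {L : Type} [Field L] [Algebra ℚ L] [FiniteDimensional ℚ L] [IsGalois ℚ L] (S : Set ℕ) (X : ℕ) :
    cnt (S ∩ FrIn (Set.univ : Set (L ≃ₐ[ℚ] L))) X = cnt S X := by
  refine le_antisymm (cnt_mono (fun p hp _ => hp.1) X) (cnt_mono ?_ X)
  intro p hp hpr
  obtain ⟨σ, hσ⟩ := exists_isFr (L := L) hpr
  exact ⟨hp, σ, Set.mem_univ _, hσ⟩

theorem frIn_empty {L : Type} [Field L] [Algebra ℚ L] : FrIn (∅ : Set (L ≃ₐ[ℚ] L)) = ∅ := by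
  ext p
  simp [FrIn]

/-- Along a suitable subsequence, countably many sets of primes have a density. -/
theorem exists_lim {ι : Type*} [Countable ι] (A : ι → Set ℕ) (Y : ℕ → ℕ) : ∃ φ : ℕ → ℕ, StrictMono φ ∧ ∃ s : ι → ℝ,
    ∀ i, Tendsto (fun n => cnt (A i) (Y (φ n)) / (Nat.primeCounting (Y (φ n)) : ℝ)) atTop (𝓝 (s i)) := by
  have hb : ∀ (i : ι) (n : ℕ), cnt (A i) (Y n) / (Nat.primeCounting (Y n) : ℝ) ∈ Set.Icc (0 : ℝ) 1 := fun i n =>
    ⟨div_nonneg (cnt_nonneg _ _) (Nat.cast_nonneg _), div_le_one_of_le₀ (cnt_le_pi _ _) (Nat.cast_nonneg _)⟩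
  obtain ⟨a, φ, hφ, hlim⟩ := CompactSpace.tendsto_subseq
    (fun n => (fun i => (⟨_, hb i n⟩ : Set.Icc (0 : ℝ) 1)))
  refine ⟨φ, hφ, fun i => a i, fun i => ?_⟩
  exact (continuous_subtype_val.tendsto _).comp (((continuous_apply i).tendsto a).comp hlim)

theorem countable_fd [IsAlgClosure ℚ Ω] : Countable {L : IntermediateField ℚ Ω // FiniteDimensional ℚ L} := by
  have h0 : Algebra.IsAlgebraic ℚ Ω := IsAlgClosure.isAlgebraic
  have h1 : Countable Ω := by
    rw [← Cardinal.mk_le_aleph0_iff]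
    refine (Algebra.IsAlgebraic.cardinalMk_le_max ℚ Ω).trans ?_
    simp
  have h2 : ∀ L : {L : IntermediateField ℚ Ω // FiniteDimensional ℚ L}, ∃ x : Ω, IntermediateField.adjoin ℚ {x} = L.1 := by
    rintro ⟨L, hL⟩
    obtain ⟨y, hy⟩ := Field.exists_primitive_element ℚ L
    refine ⟨(y : Ω), ?_⟩
    have h3 := IntermediateField.lift_adjoin_simple ℚ L y
    rw [← h3, hy, IntermediateField.lift_top]
  choose g hg using h2
  exact Function.Injective.countable (f := g) fun L L' h => Subtype.ext (by rw [← hg L, ← hg L', h])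

end H6E
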