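import Pool.Agent.Lib.H6E.A7

/-!
# Bessel's inequality for the densities in the Frobenius classes of pairwise linearly disjoint fields
-/

namespace H6E

open Finset Filter Topology NumberField

attribute [-instance] DivisionRing.toRatAlgebra SubfieldClass.instSMulRat

variable {Ω : Type} [Field Ω] [Algebra ℚ Ω]

theorem sum_bad [IsAlgClosure ℚ Ω] {l : Filter ℕ} [l.NeBot] (hl : l ≤ atTop) (S : Set ℕ) {δ : ℝ} (hδ : 0 < δ)
    (hS : ∀ᶠ X : ℕ in l, δ * Nat.primeCounting X ≤ cnt S X) {J : Type*} [Fintype J]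
    (L : J → IntermediateField ℚ Ω) (η : J → ℝ) (hf : ∀ i, FiniteDimensional ℚ (L i)) (hg : ∀ i, IsGalois ℚ (L i))
    (C : ∀ i, Set (L i ≃ₐ[ℚ] L i)) (hC : ∀ i, Stab (C i)) (hC1 : ∀ i, (C i).Nonempty) (hC2 : ∀ i, C i ≠ Set.univ)
    (hd : ∀ i j, i ≠ j → L i ⊓ L j = ⊥) (hb : ∀ i, ∀ᶠ X : ℕ in l,
      η i * (mu (C i) * (1 - mu (C i))) * cnt S X ^ 2 < (cnt (S ∩ FrIn (C i)) X - mu (C i) * cnt S X) ^ 2) :
    ∑ i, η i ≤ 1 / δ - 1 :=
  few_bad2 hl S (fun _ => Unit) (fun i _ => FrIn (C i)) (fun i _ => mu (C i)) η (fun i _ => mu_pos (hC1 i))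
    (fun i _ => mu_lt_one (hC2 i)) (fun i _ => dens_frIn (hC i))
    (fun i j hij _ _ => dens_pair_if (L i) (L j) (hd i j hij) (hC i) (hC j)) hδ hS
    (fun i => (hb i).mono fun _ h => ⟨(), h⟩)

theorem aux_div (e m x z y : ℝ) (hy : y ≠ 0) :
    e * (x / y) ^ 2 - (z / y - m * (x / y)) ^ 2 = (e * x ^ 2 - (z - m * x) ^ 2) / y ^ 2 := by
  field_simp

/-- Let `S` be a set of primes of positive lower density. Along a suitable subsequence of every sequence, `S` has a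
density `σ` and its intersections with all Frobenius classes of all finite Galois extensions have densities, and these
satisfy Bessel's inequality. -/
theorem bessel_lim [IsAlgClosure ℚ Ω] (S : Set ℕ) {δ : ℝ} (hδ : 0 < δ)
    (hS : ∀ᶠ X : ℕ in atTop, δ * Nat.primeCounting X ≤ cnt S X) (Y : ℕ → ℕ) (hY : Tendsto Y atTop atTop) :
    ∃ φ : ℕ → ℕ, StrictMono φ ∧ ∃ σ : ℝ, δ ≤ σ ∧ ∃ s : (L : IntermediateField ℚ Ω) → Set (L ≃ₐ[ℚ] L) → ℝ,
      Tendsto (fun n => cnt S (Y (φ n)) / (Nat.primeCounting (Y (φ n)) : ℝ)) atTop (𝓝 σ) ∧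
      (∀ L : IntermediateField ℚ Ω, FiniteDimensional ℚ L → ∀ C : Set (L ≃ₐ[ℚ] L),
        Tendsto (fun n => cnt (S ∩ FrIn C) (Y (φ n)) / (Nat.primeCounting (Y (φ n)) : ℝ)) atTop (𝓝 (s L C))) ∧
      ∀ (F : Finset (IntermediateField ℚ Ω)) (C : (L : IntermediateField ℚ Ω) → Set (L ≃ₐ[ℚ] L)),
        (∀ L ∈ F, FiniteDimensional ℚ L ∧ IsGalois ℚ L ∧ Stab (C L)) →
        (∀ L ∈ F, ∀ L' ∈ F, L ≠ L' → L ⊓ L' = ⊥) →
          ∑ L ∈ F, (s L (C L) - σ * mu (C L)) ^ 2 / (mu (C L) * (1 - mu (C L))) ≤ σ * (1 - σ) := by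
  classical
  have hcfd := countable_fd (Ω := Ω)
  have hcs : ∀ L : {L : IntermediateField ℚ Ω // FiniteDimensional ℚ L}, Countable (Set (L.1 ≃ₐ[ℚ] L.1)) := fun L => by
    have := L.2
    infer_instance
  obtain ⟨φ, hφ, s0, hs⟩ := exists_lim
    (fun i : Option ((L : {L : IntermediateField ℚ Ω // FiniteDimensional ℚ L}) × Set (L.1 ≃ₐ[ℚ] L.1)) =>
      match i with
      | none => S
      | some ⟨L, C⟩ => S ∩ FrIn C) Y
  obtain ⟨X, hXd⟩ : ∃ X : ℕ → ℕ, ∀ n, X n = Y (φ n) := ⟨_, fun _ => rfl⟩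
  simp_rw [← hXd] at hs ⊢
  have hXt : Tendsto X atTop atTop := by
    have h := hY.comp hφ.tendsto_atTop
    exact h.congr fun n => (hXd n).symm
  have hσ1 : Tendsto (fun n => cnt S (X n) / (Nat.primeCounting (X n) : ℝ)) atTop (𝓝 (s0 none)) := hs none
  obtain ⟨s, hsd⟩ : ∃ s : (L : IntermediateField ℚ Ω) → Set (L ≃ₐ[ℚ] L) → ℝ,
      ∀ (L : IntermediateField ℚ Ω) (hL : FiniteDimensional ℚ L) (C : Set (L ≃ₐ[ℚ] L)),
        s L C = s0 (some ⟨⟨L, hL⟩, C⟩) :=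
    ⟨fun L C => if h : FiniteDimensional ℚ L then s0 (some ⟨⟨L, h⟩, C⟩) else 0, fun L hL C => dif_pos hL⟩
  have hr : ∀ L : IntermediateField ℚ Ω, FiniteDimensional ℚ L → ∀ C : Set (L ≃ₐ[ℚ] L),
      Tendsto (fun n => cnt (S ∩ FrIn C) (X n) / (Nat.primeCounting (X n) : ℝ)) atTop (𝓝 (s L C)) :=
    fun L hL C => by
      rw [hsd L hL C]
      exact hs (some ⟨⟨L, hL⟩, C⟩)
  obtain ⟨σ, hσ⟩ : ∃ σ : ℝ, σ = s0 none := ⟨_, rfl⟩
  rw [← hσ] at hσ1
  have hδσ : δ ≤ σ := by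
    refine ge_of_tendsto hσ1 ?_
    filter_upwards [hXt.eventually hS, hXt.eventually ev_pi_pos] with n h1 h2
    rwa [le_div_iff₀ h2]
  have hσ0 : 0 < σ := hδ.trans_le hδσ
  refine ⟨φ, hφ, σ, hδσ, s, ?_, ?_, fun F C hF hd => ?_⟩
  · simp_rw [← hXd]
    exact hσ1
  · simp_rw [← hXd]
    exact hr
  -- the normalised terms
  obtain ⟨v, hv⟩ : ∃ v : IntermediateField ℚ Ω → ℝ, ∀ L, v L =
      (s L (C L) - σ * mu (C L)) ^ 2 / (mu (C L) * (1 - mu (C L))) := ⟨_, fun _ => rfl⟩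
  simp_rw [← hv]
  -- only the proper classes matter
  have hF' : ∀ L ∈ F, v L ≠ 0 → (C L).Nonempty ∧ C L ≠ Set.univ := by
    intro L hL h0
    have := (hF L hL).1
    refine ⟨?_, ?_⟩
    · by_contra h
      rw [Set.not_nonempty_iff_eq_empty] at h
      refine h0 ?_
      rw [hv, h]
      simp [mu]
    · intro h
      refine h0 ?_
      rw [hv, h, mu_univ]
      simp
  have hmain : ∀ ε : ℝ, 0 < ε → ∑ L ∈ F, v L / σ ^ 2 ≤ 1 / σ - 1 + ε := by
    intro ε hε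
    have hε' : 0 < ε / 2 / (#F + 1) := by positivity
    obtain ⟨δ', hδ', hδ'σ, hδ'2⟩ : ∃ δ' : ℝ, 0 < δ' ∧ δ' < σ ∧ 1 / δ' = 1 / σ + ε / 2 := by
      refine ⟨1 / (1 / σ + ε / 2), by positivity, ?_, by rw [one_div_one_div]⟩
      rw [div_lt_iff₀ (by positivity), mul_add, mul_one_div_cancel hσ0.ne']
      nlinarith [mul_pos hσ0 hε]
    have hS' : ∀ᶠ Y : ℕ in map X atTop, δ' * Nat.primeCounting Y ≤ cnt S Y := by
      refine eventually_map.2 ?_
      filter_upwards [hσ1.eventually (lt_mem_nhds hδ'σ), hXt.eventually ev_pi_pos] with n h1 h2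
      exact ((lt_div_iff₀ h2).1 h1).le
    have hG : ∀ L ∈ F.filter (fun L => v L ≠ 0), L ∈ F ∧ v L ≠ 0 := fun L hL => Finset.mem_filter.1 hL
    have h1 := sum_bad (l := map X atTop) hXt S hδ' hS' (J := (F.filter (fun L => v L ≠ 0) : Finset _)) (fun i => i.1)
      (fun i => v i.1 / σ ^ 2 - ε / 2 / (#F + 1))
      (fun i => (hF i.1 (hG i.1 i.2).1).1) (fun i => (hF i.1 (hG i.1 i.2).1).2.1) (fun i => C i.1)
      (fun i => (hF i.1 (hG i.1 i.2).1).2.2) (fun i => (hF' i.1 (hG i.1 i.2).1 (hG i.1 i.2).2).1)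
      (fun i => (hF' i.1 (hG i.1 i.2).1 (hG i.1 i.2).2).2)
      (fun i j hij => hd i.1 (hG i.1 i.2).1 j.1 (hG j.1 j.2).1 fun h => hij (Subtype.ext h))
      (fun i => by
        have hfd := (hF i.1 (hG i.1 i.2).1).1
        have hne := (hF' i.1 (hG i.1 i.2).1 (hG i.1 i.2).2).1
        have hnu := (hF' i.1 (hG i.1 i.2).1 (hG i.1 i.2).2).2
        have hm : 0 < mu (C i.1) * (1 - mu (C i.1)) := mul_pos (mu_pos hne) (by linarith [mu_lt_one hnu])
        have h2 : (v i.1 / σ ^ 2 - ε / 2 / (#F + 1)) * (mu (C i.1) * (1 - mu (C i.1))) * σ ^ 2 <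
            (s i.1 (C i.1) - mu (C i.1) * σ) ^ 2 := by
          have h4 : 0 < ε / 2 / (#F + 1) * (mu (C i.1) * (1 - mu (C i.1))) * σ ^ 2 :=
            mul_pos (mul_pos hε' hm) (by positivity)
          have h5 : v i.1 / σ ^ 2 * (mu (C i.1) * (1 - mu (C i.1))) * σ ^ 2 =
              (s i.1 (C i.1) - mu (C i.1) * σ) ^ 2 := by
            rw [hv, mul_right_comm, div_mul_cancel₀ _ (by positivity), div_mul_cancel₀ _ hm.ne', mul_comm σ]
          calc (v i.1 / σ ^ 2 - ε / 2 / (#F + 1)) * (mu (C i.1) * (1 - mu (C i.1))) * σ ^ 2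
              = v i.1 / σ ^ 2 * (mu (C i.1) * (1 - mu (C i.1))) * σ ^ 2 -
                ε / 2 / (#F + 1) * (mu (C i.1) * (1 - mu (C i.1))) * σ ^ 2 := by ring
            _ < _ := by rw [h5]; linarith
        have h3 := ((hσ1.pow 2).const_mul ((v i.1 / σ ^ 2 - ε / 2 / (#F + 1)) * (mu (C i.1) * (1 - mu (C i.1))))).sub
          (((hr i.1 hfd (C i.1)).sub (hσ1.const_mul (mu (C i.1)))).pow 2)
        refine eventually_map.2 ?_
        filter_upwards [h3.eventually (gt_mem_nhds (sub_neg.2 h2)), hXt.eventually ev_pi_pos] with n h5 h6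
        rw [aux_div _ _ _ _ _ h6.ne'] at h5
        have h8 := (div_lt_iff₀ (by positivity)).1 h5
        rw [zero_mul] at h8
        linarith)
    rw [Finset.sum_coe_sort (F.filter (fun L => v L ≠ 0)) (fun L => v L / σ ^ 2 - ε / 2 / (#F + 1)),
      sum_sub_distrib, sum_const, nsmul_eq_mul, hδ'2] at h1
    have h2 : ((#(F.filter (fun L => v L ≠ 0)) : ℕ) : ℝ) * (ε / 2 / (#F + 1)) ≤ ε / 2 := by
      have h3 : ((#(F.filter (fun L => v L ≠ 0)) : ℕ) : ℝ) ≤ #F := by exact_mod_cast card_filter_le _ _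
      rw [mul_div_assoc', div_le_iff₀ (by positivity)]
      nlinarith
    have h3 : ∑ L ∈ F, v L / σ ^ 2 = ∑ L ∈ F.filter (fun L => v L ≠ 0), v L / σ ^ 2 := by
      rw [sum_filter]
      refine sum_congr rfl fun L _ => ?_
      split_ifs with h
      · rfl
      · rw [not_not.1 h, zero_div]
    rw [h3]
    linarith
  have h1 := le_of_forall_pos_le_add hmain
  rw [← sum_div, div_le_iff₀ (by positivity)] at h1
  refine h1.trans (le_of_eq ?_)
  have h2 := hσ0.ne'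
  field_simp

end H6E
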