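import Pool.Agent.Lib.H6E.A5
import Pool.Agent.Lib.H6E.A8

/-!
# The same with the algebraic closure of `ℚ` and its standard instances
-/

namespace H6E

open Finset Filter Topology NumberField

theorem bessel_limQb (S : Set ℕ) {δ : ℝ} (hδ : 0 < δ)
    (hS : ∀ᶠ X : ℕ in atTop, δ * Nat.primeCounting X ≤ cnt S X) (Y : ℕ → ℕ) (hY : Tendsto Y atTop atTop) :
    ∃ φ : ℕ → ℕ, StrictMono φ ∧ ∃ σ : ℝ, δ ≤ σ ∧
      ∃ s : (L : IntermediateField ℚ (AlgebraicClosure ℚ)) → Set (L ≃ₐ[ℚ] L) → ℝ,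
      Tendsto (fun n => cnt S (Y (φ n)) / (Nat.primeCounting (Y (φ n)) : ℝ)) atTop (𝓝 σ) ∧
      (∀ L : IntermediateField ℚ (AlgebraicClosure ℚ), NumberField L → ∀ C : Set (L ≃ₐ[ℚ] L),
        Tendsto (fun n => cnt (S ∩ FrIn C) (Y (φ n)) / (Nat.primeCounting (Y (φ n)) : ℝ)) atTop (𝓝 (s L C))) ∧
      ∀ (F : Finset (IntermediateField ℚ (AlgebraicClosure ℚ)))
        (C : (L : IntermediateField ℚ (AlgebraicClosure ℚ)) → Set (L ≃ₐ[ℚ] L)),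
        (∀ L ∈ F, NumberField L ∧ IsGalois ℚ L ∧ ∀ σ τ, IsConj σ τ → σ ∈ C L → τ ∈ C L) →
        (∀ L ∈ F, ∀ L' ∈ F, L ≠ L' → L ⊓ L' = ⊥) →
          ∑ L ∈ F, (s L (C L) - σ * mu (C L)) ^ 2 / (mu (C L) * (1 - mu (C L))) ≤ σ * (1 - σ) := by
  have := isAlgClosure_Qb
  obtain ⟨φ, hφ, σ, hσ, s, h1, h2, h3⟩ := bessel_lim (Ω := AlgebraicClosure ℚ) S hδ hS Y hY
  refine ⟨φ, hφ, σ, hσ, s, h1, fun L hL C => ?_, fun F C hF hd => ?_⟩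
  · exact h2 L hL.to_finiteDimensional C
  · exact h3 F C (fun L hL => ⟨(hF L hL).1.to_finiteDimensional, (hF L hL).2.1, (hF L hL).2.2⟩) hd

end H6E
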